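import Pool.Agent.H137R5.TowFree

set_option autoImplicit false

/-!
Towers of height three `a ^ (n ^ c)` whose middle entry `n` runs through the integers
(for `a = √2`, `c = √2 / 2` the number for `n = 2` is `√2 ^ (√2 ^ √2)`).

Uses the strong six exponentials theorem (helper301, helper335), the inhomogeneous Baker theorem
and multiplicative cubes in dense sets (helper297).
-/

namespace Pool.Agent.Results.MP_93d8d2_nt.AlmostAllMiddleEntries

open Pool.Agent.H137R5.Tow

/-- `t` is *free*: its logarithm is not of the form `γ + β₁ l₁ + ... + βₘ lₘ` with `γ`, the `βᵢ`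
and the exponentials of the `lᵢ` algebraic (complex) numbers, i.e. `t` is not of the form
`e ^ γ * α₁ ^ β₁ * ... * αₘ ^ βₘ`. -/
def Free (t : ℝ) : Prop :=
  ∀ (m : ℕ) (γ : ℂ) (β l : Fin m → ℂ), IsAlgebraic ℚ γ → (∀ i, IsAlgebraic ℚ (β i)) →
    (∀ i, IsAlgebraic ℚ (Complex.exp (l i))) → ((Real.log t : ℝ) : ℂ) ≠ γ + ∑ i, β i * l i

open Classical in
/-- Let `a ≠ 1` be a positive real number and `c` a real algebraic irrational number. For 100
percent of the positive integers `n` the number `a ^ (n ^ c)` is free; free positive numbers `t`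
are transcendental, and so are `e ^ γ * t ^ δ` for algebraic `γ` and algebraic `δ ≠ 0`. -/
theorem result (a c : ℝ) (ha : 0 < a) (ha1 : a ≠ 1) (hca : IsAlgebraic ℚ c) (hc : Irrational c) :
    (∀ ε : ℝ, 0 < ε → ∃ N₀ : ℕ, ∀ N ≥ N₀, (((Finset.Icc 1 N).filter
      (fun n : ℕ => ¬ Free (a ^ ((n : ℝ) ^ c)))).card : ℝ) ≤ ε * N) ∧
    (∀ t : ℝ, 0 < t → Free t → Transcendental ℚ t ∧
      ∀ γ δ : ℂ, IsAlgebraic ℚ γ → IsAlgebraic ℚ δ → δ ≠ 0 →
        Transcendental ℚ (Complex.exp (γ + δ * ((Real.log t : ℝ) : ℂ)))) := by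
  refine ⟨?_, ?_⟩
  · intro ε hε
    obtain ⟨N₀, hN₀⟩ := midCount a c ha ha1 hca hc ε hε
    refine ⟨N₀, fun N hN => le_trans ?_ (hN₀ N hN)⟩
    have : ((Finset.Icc 1 N).filter (fun n : ℕ => ¬ Free (a ^ ((n : ℝ) ^ c)))).card ≤
        ((Finset.Icc 1 N).filter (fun n : ℕ => Bad (a ^ ((n : ℝ) ^ c)))).card := by
      apply Finset.card_le_card
      intro n hn
      rw [Finset.mem_filter] at hn ⊢
      exact ⟨hn.1, bad_of_not_free hn.2⟩
    exact_mod_cast this
  · intro t ht hf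
    exact ⟨free_tr ht hf, fun γ δ hγ hδ hδ0 => free_pow hf γ δ hγ hδ hδ0⟩

end Pool.Agent.Results.MP_93d8d2_nt.AlmostAllMiddleEntries
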