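import Pool.Agent.H137R5.TowFree

set_option autoImplicit false

/-!
Towers of height three `a ^ (b ^ (γ + k δ))` whose top entry runs through an arithmetic
progression with algebraic irrational difference (for `a = b = δ = √2`, `γ = 0`, `k = 1` this is
`√2 ^ (√2 ^ √2)`).

Uses the strong six exponentials theorem (helper301, helper335) and the inhomogeneous Baker
theorem (helper297).
-/

namespace Pool.Agent.Results.MP_93d8d2_nt.SparseTopEntries

open Pool.Agent.H137R5.Tow

/-- `t` is *free*: its logarithm is not of the form `γ + β₁ l₁ + ... + βₘ lₘ` with `γ`, the `βᵢ`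
and the exponentials of the `lᵢ` algebraic (complex) numbers, i.e. `t` is not of the form
`e ^ γ * α₁ ^ β₁ * ... * αₘ ^ βₘ`. -/
def Free (t : ℝ) : Prop :=
  ∀ (m : ℕ) (γ : ℂ) (β l : Fin m → ℂ), IsAlgebraic ℚ γ → (∀ i, IsAlgebraic ℚ (β i)) →
    (∀ i, IsAlgebraic ℚ (Complex.exp (l i))) → ((Real.log t : ℝ) : ℂ) ≠ γ + ∑ i, β i * l i

open Classical in
/-- Let `a ≠ 1` be a positive real number, `b ≠ 1` a positive algebraic number, `g` a real number
and `d` a real algebraic irrational number. Among the numbers `T k = a ^ (b ^ (g + k d))`,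
`1 ≤ k ≤ N`, at most `2 √N + 1` are not free (in particular, at most so many are algebraic); and
for every `r ≥ 1` there are at most two `k ≥ 0` such that neither `T k` nor `T (k + r)` is free. -/
theorem result (a b g d : ℝ) (ha : 0 < a) (ha1 : a ≠ 1) (hb : 0 < b) (hb1 : b ≠ 1)
    (hba : IsAlgebraic ℚ b) (hda : IsAlgebraic ℚ d) (hd : Irrational d) :
    (∀ N : ℕ, (((Finset.Icc 1 N).filter
      (fun k : ℕ => ¬ Free (a ^ (b ^ (g + (k : ℝ) * d))))).card : ℝ) ≤ 2 * Real.sqrt N + 1) ∧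
    (∀ N : ℕ, (((Finset.Icc 1 N).filter
      (fun k : ℕ => ¬ Transcendental ℚ (a ^ (b ^ (g + (k : ℝ) * d))))).card : ℝ) ≤
        2 * Real.sqrt N + 1) ∧
    (∀ r : ℕ, r ≠ 0 → ∀ S : Finset ℕ, (∀ k ∈ S, ¬ Free (a ^ (b ^ (g + (k : ℝ) * d))) ∧
      ¬ Free (a ^ (b ^ (g + ((k + r : ℕ) : ℝ) * d)))) → S.card ≤ 2) := by
  have hz : Transcendental ℚ (b ^ d) := gs hb hb1 hba hda hd
  have hL : b ^ g * Real.log a ≠ 0 :=
    mul_ne_zero (Real.rpow_pos_of_pos hb g).ne' (log_ne ha ha1)
  have top : ∀ k : ℕ, ¬ Free (a ^ (b ^ (g + (k : ℝ) * d))) →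
      InE (b ^ d) (b ^ g * Real.log a) k := by
    intro k hk
    have h1 := bad_rpow ha (bad_of_not_free hk)
    unfold InE
    have h2 : b ^ (g + (k : ℝ) * d) = (b ^ d) ^ k * b ^ g := by
      rw [Real.rpow_add hb, mul_comm (k : ℝ) d, Real.rpow_mul hb.le, Real.rpow_natCast, mul_comm]
    rw [h2] at h1
    push_cast at h1 ⊢
    rw [← mul_assoc]
    exact h1
  have main : ∀ N : ℕ, (((Finset.Icc 1 N).filter
      (fun k : ℕ => ¬ Free (a ^ (b ^ (g + (k : ℝ) * d))))).card : ℝ) ≤ 2 * Real.sqrt N + 1 := by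
    intro N
    refine le_trans ?_ (topCount (b ^ d) (b ^ g * Real.log a) hz hL N)
    have : ((Finset.Icc 1 N).filter (fun k : ℕ => ¬ Free (a ^ (b ^ (g + (k : ℝ) * d))))).card ≤
        ((Finset.Icc 1 N).filter (fun k : ℕ => InE (b ^ d) (b ^ g * Real.log a) k)).card := by
      apply Finset.card_le_card
      intro n hn
      rw [Finset.mem_filter] at hn ⊢
      exact ⟨hn.1, top n hn.2⟩
    exact_mod_cast this
  refine ⟨main, ?_, ?_⟩
  · intro N
    refine le_trans ?_ (main N)
    have : ((Finset.Icc 1 N).filter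
        (fun k : ℕ => ¬ Transcendental ℚ (a ^ (b ^ (g + (k : ℝ) * d))))).card ≤
        ((Finset.Icc 1 N).filter (fun k : ℕ => ¬ Free (a ^ (b ^ (g + (k : ℝ) * d))))).card := by
      apply Finset.card_le_card
      intro n hn
      rw [Finset.mem_filter] at hn ⊢
      exact ⟨hn.1, fun hf => hn.2 (free_tr (Real.rpow_pos_of_pos ha _) hf)⟩
    exact_mod_cast this
  · intro r hr S hS
    by_contra hcon
    push Not at hcon
    obtain ⟨k, hk, l, hl, m, hm, hkl, hkm, hlm⟩ := Finset.two_lt_card.mp hcon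
    refine diff_two (b ^ d) (b ^ g * Real.log a) hz hL (r : ℤ) (by exact_mod_cast hr) k l m (k + r)
      (l + r) (m + r) (by push_cast; ring) (by push_cast; ring) (by push_cast; ring) hkl hkm hlm
      (top k (hS k hk).1) (top l (hS l hl).1) (top m (hS m hm).1)
      (top _ (hS k hk).2) (top _ (hS l hl).2) (top _ (hS m hm).2)

end Pool.Agent.Results.MP_93d8d2_nt.SparseTopEntries
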