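import Pool.Agent.H206R2.Tower.Six

/-!
The tower `w = √2 ^ (√2 ^ √2)`, with `z = √2 ^ √2` and `L = log √2`. Either `w` is transcendental,
or at least three of the four numbers `z`, `1/z`, `z² L`, `L/z` and at least two of the three
numbers `z L²`, `(z L)²`, `1/(z L)` are not linear combinations of logarithms of algebraic numbers
with algebraic coefficients.
-/

set_option autoImplicit false

namespace Pool.Agent.Results.MP_93d8d2_nt.TowerOrFiveOfSeven

open Real Pool.Agent.H301R2.SSE Pool.Agent.H301R2.Nine Pool.Agent.H206R2.Tower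

/-- `z = √2 ^ √2` -/
noncomputable def z : ℝ := √2 ^ √2

/-- the tower `w = √2 ^ (√2 ^ √2)` -/
noncomputable def w : ℝ := √2 ^ z

/-- `L = log √2` -/
noncomputable def L : ℝ := Real.log √2

/-- `x` is log-free: every number `exp (γ x) · α₁ ^ β₁ ⋯ αₙ ^ βₙ` is transcendental, where
`γ ≠ 0` and the `βⱼ` are algebraic and `αⱼ ^ βⱼ = exp (βⱼ ℓⱼ)` with `exp ℓⱼ = αⱼ` algebraic. -/
def LogFree (x : ℂ) : Prop :=
  ∀ γ : ℂ, IsAlgebraic ℚ γ → γ ≠ 0 → ∀ (n : ℕ) (β ℓ : Fin n → ℂ),
    (∀ j, IsAlgebraic ℚ (β j)) → (∀ j, IsAlgebraic ℚ (Complex.exp (ℓ j))) →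
      Transcendental ℚ (Complex.exp (γ * x + ∑ j, β j * ℓ j))

theorem mem_of_not {x : ℂ} (h : ¬ LogFree x) : x ∈ LB := by
  unfold LogFree at h
  push Not at h
  obtain ⟨γ, hγ, hγ0, n, β, ℓ, hβ, hℓ, h⟩ := h
  rw [Transcendental, not_not] at h
  have h1 : γ * x + ∑ j, β j * ℓ j ∈ LB := LB_log h
  have h2 : ∑ j, β j * ℓ j ∈ LB := LB.sum_mem (fun j _ => LB_mul (hβ j) (LB_log (hℓ j)))
  have h3 := LB_mul hγ.inv (LB.sub_mem h1 h2)
  have e : γ⁻¹ * (γ * x + ∑ j, β j * ℓ j - ∑ j, β j * ℓ j) = x := by
    rw [add_sub_cancel_right, inv_mul_cancel_left₀ hγ0]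
  rwa [e] at h3

theorem L_pos : 0 < L := Real.log_pos (by
  have h : (1 : ℝ) < √2 := by
    rw [Real.lt_sqrt (by norm_num)]; norm_num
  exact h)

theorem z_eq : z = Real.exp (√2 * L) := by
  rw [z, Real.rpow_def_of_pos (by positivity), L, mul_comm]

theorem w_eq : w = Real.exp (z * L) := by
  rw [w, Real.rpow_def_of_pos (by positivity), L, mul_comm]

theorem exp_L : Real.exp L = √2 := Real.exp_log (by positivity)

/-- Baker's theorem for two real logarithms with irrational quotient -/
theorem two_logs {s t : ℝ} (hs0 : s ≠ 0) (hs : IsAlgebraic ℚ (Real.exp s))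
    (hst : IsAlgebraic ℚ (Real.exp (t * s))) (ht : Irrational t) : ¬ IsAlgebraic ℚ t := by
  intro halg
  have hω : LinearIndependent ℚ (![(s : ℂ), ((t * s : ℝ) : ℂ)] : Fin 2 → ℂ) := by
    rw [LinearIndependent.pair_iff]
    intro a b hab
    have h1 : (a : ℝ) * s + (b : ℝ) * (t * s) = 0 := by
      simp [Rat.smul_def] at hab
      exact_mod_cast hab
    have h2 : ((a : ℝ) + (b : ℝ) * t) * s = 0 := by linear_combination h1
    have h3 : (a : ℝ) + (b : ℝ) * t = 0 := (mul_eq_zero.mp h2).resolve_right hs0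
    by_cases hb : b = 0
    · subst hb
      refine ⟨?_, rfl⟩
      have : (a : ℝ) = 0 := by simpa using h3
      exact_mod_cast this
    · exfalso
      apply ht
      refine ⟨-a / b, ?_⟩
      have hb' : (b : ℝ) ≠ 0 := by exact_mod_cast hb
      push_cast
      field_simp
      linear_combination -h3
  have h := Pool.Agent.H297R2.baker_inhom _ (by
      intro i
      fin_cases i
      · change IsAlgebraic ℚ (Complex.exp (s : ℂ))
        rw [← Complex.ofReal_exp]; exact toC hs
      · change IsAlgebraic ℚ (Complex.exp ((t * s : ℝ) : ℂ))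
        rw [← Complex.ofReal_exp]; exact toC hst) hω 0 isAlgebraic_zero ![(t : ℂ), -1] (by
      intro i
      fin_cases i
      · exact toC halg
      · exact isAlgebraic_one.neg) (by
      rw [Fin.sum_univ_two]
      simp only [Matrix.cons_val_zero, Matrix.cons_val_one]
      push_cast
      ring)
  have h1 := h.2 1
  simp only [Matrix.cons_val_one] at h1
  exact one_ne_zero (neg_eq_zero.mp h1)

/-- Gelfond–Schneider for `z` -/
theorem z_tr : ¬ IsAlgebraic ℚ z := by
  intro h
  refine two_logs L_pos.ne' ?_ ?_ irrational_sqrt_two alg_sqrt2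
  · rw [exp_L]; exact alg_sqrt2
  · rw [← z_eq]; exact h

theorem z_trC : ¬ IsAlgebraic ℚ (z : ℂ) := fun h => z_tr (ofC h)

theorem L_mem : (L : ℂ) ∈ LB := real_mem (by rw [exp_L]; exact alg_sqrt2)

theorem L_ne : (L : ℂ) ≠ 0 := by exact_mod_cast L_pos.ne'

/-- the first list -/
noncomputable def four : Fin 4 → ℂ := ![z, 1 / z, z ^ 2 * L, L / z]

/-- the second list -/
noncomputable def three : Fin 3 → ℂ := ![z * L ^ 2, (z * L) ^ 2, 1 / (z * L)]

theorem card_of_pairs {n : ℕ} (P : Fin n → Prop) (h : ∀ i j, i ≠ j → P i ∨ P j) :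
    n - 1 ≤ {i : Fin n | P i}.ncard := by
  classical
  have h1 : {i : Fin n | ¬ P i}.ncard ≤ 1 := by
    rw [Set.ncard_le_one_iff]
    intro i j hi hj
    by_contra hij
    rcases h i j hij with h | h
    · exact hi h
    · exact hj h
  have h2 : {i : Fin n | P i}.ncard + {i : Fin n | ¬ P i}.ncard = n := by
    have := Set.ncard_add_ncard_compl {i : Fin n | P i}
    rw [Nat.card_eq_fintype_card, Fintype.card_fin] at this
    exact this
  omega

/-- Either `w` is transcendental, or: `w ^ β` is transcendental for every irrational algebraic `β`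
(in particular `z ^ z = w ^ √2` is), at least three of the four numbers `z, 1/z, z² L, L/z` and at
least two of the three numbers `z L², (z L)², 1/(z L)` are log-free, and if `z L²` is not log-free
then `z, 1/z, L², 1/L` are; here `L = log √2`. -/
theorem result : Transcendental ℚ w ∨
    ((∀ β : ℝ, IsAlgebraic ℚ β → Irrational β → Transcendental ℚ (w ^ β)) ∧
      3 ≤ {i : Fin 4 | LogFree (four i)}.ncard ∧
      2 ≤ {i : Fin 3 | LogFree (three i)}.ncard ∧
      (¬ LogFree (z * L ^ 2) →
        LogFree z ∧ LogFree (1 / z) ∧ LogFree (L ^ 2) ∧ LogFree (1 / L))) := by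
  by_cases hw : Transcendental ℚ w
  · exact Or.inl hw
  right
  rw [Transcendental, not_not] at hw
  have hwe : IsAlgebraic ℚ (Real.exp (z * L)) := by rw [← w_eq]; exact hw
  have hM : (z : ℂ) * (L : ℂ) ∈ LB := by
    have := real_mem hwe
    rwa [Complex.ofReal_mul] at this
  have ht := z_trC
  have hL := L_mem
  have hL0 := L_ne
  have z0 : (z : ℂ) ≠ 0 := ne_zero_of_tr ht
  have hz0 : z ≠ 0 := by exact_mod_cast z0
  have eB : (1 / (z : ℂ)) = (z : ℂ)⁻¹ := one_div _
  have eC : (z : ℂ) ^ 2 * L = z * (z * L) := by ring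
  have eD : (L : ℂ) / z = (z : ℂ)⁻¹ * L := by rw [div_eq_mul_inv, mul_comm]
  have eN : 1 / ((z : ℂ) * L) = ((z : ℂ) * L)⁻¹ := one_div _
  have eH : 1 / (L : ℂ) = (L : ℂ)⁻¹ := one_div _
  refine ⟨?_, ?_, ?_, ?_⟩
  · intro β hβ hirr hcon
    have hcon' : IsAlgebraic ℚ (w ^ β) := hcon
    have hw0 : 0 < w := by rw [w_eq]; exact Real.exp_pos _
    refine two_logs (s := z * L) (t := β) (mul_ne_zero hz0 L_pos.ne') hwe ?_ hirr hβ
    have e : w ^ β = Real.exp (β * (z * L)) := by
      rw [w_eq, ← Real.exp_mul, mul_comm]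
    rwa [e] at hcon'
  · refine card_of_pairs (fun i => LogFree (four i)) ?_
    have key : ∀ i j : Fin 4, i < j → LogFree (four i) ∨ LogFree (four j) := by
      intro i j hij
      by_contra hcon
      rw [not_or] at hcon
      obtain ⟨h1, h2⟩ := hcon
      have h1 := mem_of_not h1
      have h2 := mem_of_not h2
      fin_cases i <;> fin_cases j <;> simp only [four] at h1 h2 hij <;>
        first
          | exact absurd hij (by decide)
          | skip
      · exact pAB ht hL0 hL hM h1 (by rw [← eB]; exact h2)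
      · exact pAC ht hL0 hL hM h1 (by rw [← eC]; exact h2)
      · exact pAD ht hL0 hL hM h1 (by rw [← eD]; exact h2)
      · exact pBC ht hL0 hL hM (by rw [← eB]; exact h1) (by rw [← eC]; exact h2)
      · exact pBD ht hL0 hL hM (by rw [← eB]; exact h1) (by rw [← eD]; exact h2)
      · exact pCD ht hL0 hL hM (by rw [← eC]; exact h1) (by rw [← eD]; exact h2)
    intro i j hij
    rcases lt_or_gt_of_ne hij with h | h
    · exact key i j h
    · exact (key j i h).symm
  · refine card_of_pairs (fun i => LogFree (three i)) ?_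
    have key : ∀ i j : Fin 3, i < j → LogFree (three i) ∨ LogFree (three j) := by
      intro i j hij
      by_contra hcon
      rw [not_or] at hcon
      obtain ⟨h1, h2⟩ := hcon
      have h1 := mem_of_not h1
      have h2 := mem_of_not h2
      fin_cases i <;> fin_cases j <;> simp only [three] at h1 h2 hij <;>
        first
          | exact absurd hij (by decide)
          | skip
      · exact pKE ht hL0 hL hM h2 h1
      · exact pNE ht hL0 hL hM (by rw [← eN]; exact h2) h1
      · exact pKN ht hL0 hM h1 (by rw [← eN]; exact h2)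
    intro i j hij
    rcases lt_or_gt_of_ne hij with h | h
    · exact key i j h
    · exact (key j i h).symm
  · intro hE
    have hE := mem_of_not hE
    refine ⟨?_, ?_, ?_, ?_⟩
    · by_contra h
      exact pAE ht hL0 hL hM (mem_of_not h) hE
    · by_contra h
      exact pBE ht hL0 hL hM (by rw [← eB]; exact mem_of_not h) hE
    · by_contra h
      exact pGE ht hL0 hL hM (mem_of_not h) hE
    · by_contra h
      exact pHE ht hL0 hL hM (by rw [← eH]; exact mem_of_not h) hE

end Pool.Agent.Results.MP_93d8d2_nt.TowerOrFiveOfSeven
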